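import Pool.Agent.Lib.MP_3f0dd2_gt.Own

/-!
# MP_3f0dd2_gt, Q1: the volume product of a spherical simplex is at most that of the orthant piece

For the `(n-1)`-dimensional Euclidean Hausdorff measure on the sphere, and for every finite measure on the
sphere which is invariant under linear isometries.
-/

set_option autoImplicit false
open MeasureTheory Metric

namespace Pool.Agent.Results.MP_3f0dd2_gt.SphericalVolume

/-- The unit sphere `S^(n-1)` of `ℝ^n`. -/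
def S (n : ℕ) : Set (EuclideanSpace ℝ (Fin n)) := {x | ‖x‖ = 1}

/-- The spherical dual of `Q`. -/
def dual {n : ℕ} (Q : Set (EuclideanSpace ℝ (Fin n))) : Set (EuclideanSpace ℝ (Fin n)) :=
  {x | x ∈ S n ∧ ∀ y ∈ Q, 0 ≤ inner ℝ x y}

/-- `Δ` is a spherical simplex in `S^(n-1)`. -/
def IsSimplex {n : ℕ} (Δ : Set (EuclideanSpace ℝ (Fin n))) : Prop :=
  ∃ u : Fin n → EuclideanSpace ℝ (Fin n), LinearIndependent ℝ u ∧
    Δ = {x | x ∈ S n ∧ ∀ i, 0 ≤ inner ℝ x (u i)}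

/-- The part of the sphere in the nonnegative orthant. -/
def orthant (n : ℕ) : Set (EuclideanSpace ℝ (Fin n)) := {x | x ∈ S n ∧ ∀ i, 0 ≤ x i}

/-- The volume product of `Q` with respect to the measure `σ`. -/
noncomputable def P {n : ℕ} (σ : Measure (EuclideanSpace ℝ (Fin n)))
    (Q : Set (EuclideanSpace ℝ (Fin n))) : ENNReal := σ Q * σ (dual Q)

/-- `σ` is finite on the sphere and invariant under linear isometries there. -/
def IsInvariant {n : ℕ} (σ : Measure (EuclideanSpace ℝ (Fin n))) : Prop :=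
  σ (S n) < ⊤ ∧ ∀ (g : EuclideanSpace ℝ (Fin n) ≃ₗᵢ[ℝ] EuclideanSpace ℝ (Fin n))
    (A : Set (EuclideanSpace ℝ (Fin n))), MeasurableSet A → A ⊆ S n → σ (g '' A) = σ A

private theorem S_eq (n : ℕ) : S n = sphere (0 : EuclideanSpace ℝ (Fin n)) 1 := by
  ext x
  exact mem_sphere_zero_iff_norm.symm

private theorem meas_closed {n : ℕ} (T : Set (EuclideanSpace ℝ (Fin n))) :
    MeasurableSet {x : sphere (0 : EuclideanSpace ℝ (Fin n)) 1 | ∀ y ∈ T, 0 ≤ inner ℝ x.1 y} := by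
  have : {x : sphere (0 : EuclideanSpace ℝ (Fin n)) 1 | ∀ y ∈ T, 0 ≤ inner ℝ x.1 y} =
      ⋂ y ∈ T, {x : sphere (0 : EuclideanSpace ℝ (Fin n)) 1 | 0 ≤ inner ℝ x.1 y} := by
    ext x
    simp
  rw [this]
  refine IsClosed.measurableSet (isClosed_biInter fun y _ => ?_)
  exact isClosed_le continuous_const (Continuous.inner continuous_subtype_val continuous_const)

private theorem inv_main {n : ℕ} (σ : Measure (EuclideanSpace ℝ (Fin n))) (hσ : IsInvariant σ) :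
    (∀ Δ : Set (EuclideanSpace ℝ (Fin n)), IsSimplex Δ → P σ Δ ≤ P σ (orthant n)) ∧
      P σ (orthant n) = (σ (S n) / 2 ^ n) ^ 2 := by
  obtain ⟨h1, h2⟩ := hσ
  rw [S_eq] at h1
  simp only [S_eq] at h2
  obtain ⟨c, hc, hσc⟩ := Pool.Agent.Lib.MP_3f0dd2_gt.invariant_eq σ h1 h2
  -- the two sets of a simplex
  have hset : ∀ u : Fin n → EuclideanSpace ℝ (Fin n),
      {x | x ∈ S n ∧ ∀ i, 0 ≤ inner ℝ x (u i)} =
        ((↑) : sphere (0 : EuclideanSpace ℝ (Fin n)) 1 → _) '' {x | ∀ i, 0 ≤ inner ℝ x.1 (u i)} := by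
    intro u
    ext x
    constructor
    · rintro ⟨hx, hx'⟩
      exact ⟨⟨x, mem_sphere_zero_iff_norm.2 hx⟩, hx', rfl⟩
    · rintro ⟨y, hy, rfl⟩
      exact ⟨mem_sphere_zero_iff_norm.1 y.2, hy⟩
  have hdual : ∀ u : Fin n → EuclideanSpace ℝ (Fin n),
      dual {x | x ∈ S n ∧ ∀ i, 0 ≤ inner ℝ x (u i)} =
        ((↑) : sphere (0 : EuclideanSpace ℝ (Fin n)) 1 → _) ''
          {x | ∀ y : sphere (0 : EuclideanSpace ℝ (Fin n)) 1, (∀ i, 0 ≤ inner ℝ y.1 (u i)) →
            0 ≤ inner ℝ x.1 y.1} := by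
    intro u
    ext x
    constructor
    · rintro ⟨hx, hx'⟩
      exact ⟨⟨x, mem_sphere_zero_iff_norm.2 hx⟩,
        fun y hy => hx' y.1 ⟨mem_sphere_zero_iff_norm.1 y.2, hy⟩, rfl⟩
    · rintro ⟨y, hy, rfl⟩
      exact ⟨mem_sphere_zero_iff_norm.1 y.2,
        fun z hz => hy ⟨z, mem_sphere_zero_iff_norm.2 hz.1⟩ hz.2⟩
  have hm1 : ∀ u : Fin n → EuclideanSpace ℝ (Fin n), MeasurableSet
      {x : sphere (0 : EuclideanSpace ℝ (Fin n)) 1 | ∀ i, 0 ≤ inner ℝ x.1 (u i)} := by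
    intro u
    have := meas_closed (Set.range u)
    simpa using this
  have hm2 : ∀ u : Fin n → EuclideanSpace ℝ (Fin n), MeasurableSet
      {x : sphere (0 : EuclideanSpace ℝ (Fin n)) 1 | ∀ y : sphere (0 : EuclideanSpace ℝ (Fin n)) 1,
        (∀ i, 0 ≤ inner ℝ y.1 (u i)) → 0 ≤ inner ℝ x.1 y.1} := by
    intro u
    have := meas_closed {y : EuclideanSpace ℝ (Fin n) | ‖y‖ = 1 ∧ ∀ i, 0 ≤ inner ℝ y (u i)}
    have e : {x : sphere (0 : EuclideanSpace ℝ (Fin n)) 1 |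
        ∀ y : sphere (0 : EuclideanSpace ℝ (Fin n)) 1,
          (∀ i, 0 ≤ inner ℝ y.1 (u i)) → 0 ≤ inner ℝ x.1 y.1} =
        {x : sphere (0 : EuclideanSpace ℝ (Fin n)) 1 |
          ∀ y ∈ {y : EuclideanSpace ℝ (Fin n) | ‖y‖ = 1 ∧ ∀ i, 0 ≤ inner ℝ y (u i)},
            0 ≤ inner ℝ x.1 y} := by
      ext x
      constructor
      · intro h y hy
        exact h ⟨y, mem_sphere_zero_iff_norm.2 hy.1⟩ hy.2
      · intro h y hy
        exact h y.1 ⟨mem_sphere_zero_iff_norm.1 y.2, hy⟩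
    rw [e]
    exact this
  have hP : ∀ u : Fin n → EuclideanSpace ℝ (Fin n),
      P σ {x | x ∈ S n ∧ ∀ i, 0 ≤ inner ℝ x (u i)} = c * c *
        ((volume : Measure (EuclideanSpace ℝ (Fin n))).toSphere
          {x : sphere (0 : EuclideanSpace ℝ (Fin n)) 1 | ∀ i, 0 ≤ inner ℝ x.1 (u i)} *
        (volume : Measure (EuclideanSpace ℝ (Fin n))).toSphere
          {x : sphere (0 : EuclideanSpace ℝ (Fin n)) 1 | ∀ y : sphere (0 : EuclideanSpace ℝ (Fin n)) 1,
            (∀ i, 0 ≤ inner ℝ y.1 (u i)) → 0 ≤ inner ℝ x.1 y.1}) := by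
    intro u
    unfold P
    rw [hdual u, hset u, hσc _ (hm1 u), hσc _ (hm2 u)]
    ring
  have hin : ∀ (x : EuclideanSpace ℝ (Fin n)) (i : Fin n), inner ℝ x (EuclideanSpace.single i (1 : ℝ)) = x i := by
    intro x i
    rw [EuclideanSpace.inner_single_right]
    simp
  have horth : orthant n = {x | x ∈ S n ∧ ∀ i, 0 ≤ inner ℝ x (EuclideanSpace.single i (1 : ℝ))} := by
    simp only [orthant, hin]
  have hself : dual (orthant n) = orthant n := by
    ext x
    constructor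
    · rintro ⟨hx, hx'⟩
      refine ⟨hx, fun i => ?_⟩
      have := hx' (EuclideanSpace.single i (1 : ℝ)) ⟨by simp [S], fun j => by
        by_cases hij : j = i
        · subst hij; simp
        · simp [hij]⟩
      rwa [hin] at this
    · rintro ⟨hx, hx'⟩
      refine ⟨hx, fun y hy => ?_⟩
      rw [EuclideanSpace.inner_eq_star_dotProduct]
      simp only [star_trivial, dotProduct]
      exact Finset.sum_nonneg fun i _ => mul_nonneg (hy.2 i) (hx' i)
  constructor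
  · rintro Δ ⟨u, hu, rfl⟩
    rw [horth, hP, hP]
    exact mul_le_mul' le_rfl (Pool.Agent.Lib.MP_3f0dd2_gt.sph_main n u hu)
  · have hv : σ (orthant n) = σ (S n) / 2 ^ n := by
      have e1 : orthant n = ((↑) : sphere (0 : EuclideanSpace ℝ (Fin n)) 1 → _) ''
          {x | ∀ i, 0 ≤ (x.1 : EuclideanSpace ℝ (Fin n)) i} := by
        ext x
        constructor
        · rintro ⟨hx, hx'⟩
          exact ⟨⟨x, mem_sphere_zero_iff_norm.2 hx⟩, hx', rfl⟩
        · rintro ⟨y, hy, rfl⟩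
          exact ⟨mem_sphere_zero_iff_norm.1 y.2, hy⟩
      have e2 : S n = ((↑) : sphere (0 : EuclideanSpace ℝ (Fin n)) 1 → _) '' Set.univ := by
        rw [Set.image_univ, Subtype.range_coe, S_eq]
      have hm : MeasurableSet {x : sphere (0 : EuclideanSpace ℝ (Fin n)) 1 |
          ∀ i, 0 ≤ (x.1 : EuclideanSpace ℝ (Fin n)) i} := by
        have := hm1 (fun i => EuclideanSpace.single i (1 : ℝ))
        simp only [hin] at this
        exact this
      rw [e1, e2, hσc _ hm, hσc _ MeasurableSet.univ, ← Pool.Agent.Lib.MP_3f0dd2_gt.sph_orthant n]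
      rw [ENNReal.eq_div_iff (by simp) (by simp)]
      ring
    unfold P
    rw [hself, hv, sq]

/-- MP_3f0dd2_gt, Q1, in full. -/
theorem result :
    (∀ n : ℕ, 2 ≤ n → ∀ Δ : Set (EuclideanSpace ℝ (Fin n)), IsSimplex Δ →
      P μHE[n - 1] Δ ≤ P μHE[n - 1] (orthant n)) ∧
    (∀ n : ℕ, 2 ≤ n → IsInvariant (μHE[n - 1] : Measure (EuclideanSpace ℝ (Fin n))) ∧
      0 < (μHE[n - 1] : Measure (EuclideanSpace ℝ (Fin n))) (S n)) ∧
    (∀ n : ℕ, ∀ σ : Measure (EuclideanSpace ℝ (Fin n)), IsInvariant σ →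
      (∀ Δ : Set (EuclideanSpace ℝ (Fin n)), IsSimplex Δ → P σ Δ ≤ P σ (orthant n)) ∧
        P σ (orthant n) = (σ (S n) / 2 ^ n) ^ 2) := by
  have hH : ∀ n : ℕ, 2 ≤ n → IsInvariant (μHE[n - 1] : Measure (EuclideanSpace ℝ (Fin n))) ∧
      0 < (μHE[n - 1] : Measure (EuclideanSpace ℝ (Fin n))) (S n) := by
    intro n hn
    have h := Pool.Agent.Lib.MP_3f0dd2_gt.hausE_sphere n (by omega)
    rw [← S_eq] at h
    exact ⟨⟨h.2, fun g A _ _ => g.isometry.euclideanHausdorffMeasure_image A⟩, h.1⟩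
  exact ⟨fun n hn => (inv_main _ (hH n hn).1).1, hH, fun n σ hσ => inv_main σ hσ⟩

end Pool.Agent.Results.MP_3f0dd2_gt.SphericalVolume
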